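import Pool.Agent.Helper95_DC.Pres

set_option autoImplicit false

/-! Module QUOT of MP_45e9b0_lc: adding relators. -/

namespace Pool.Agent.Helper95_DC

open scoped commutatorElement

theorem pres_N_le {F : Type} [Group F] {p : ℕ} {t : ℝ} {N V : Subgroup F} {Fil : ℕ → Subgroup F}
    {b : ℝ} (h : Pres p t N V Fil b) : N ≤ V ∧ ∀ m, N ≤ Fil m := by
  obtain ⟨Y, _, _, d, φ, ι, R, e, h1, h2, -⟩ := h
  refine ⟨?_, fun m => ?_⟩
  · exact (le_sup_right.trans (h2 0).le).trans inf_le_left
  · exact (le_sup_right.trans (h2 m).le).trans inf_le_right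

/-- MODULE QUOT. -/
theorem quot : QuotStatement := by
  intro p _ t ht0 ht1 F _ N V Fil b hst ι T e hT hsum hlt
  have hNn := hst.N_normal
  have hVn := hst.V_normal
  have hFn := hst.Fil_normal
  obtain ⟨hNV, hNF⟩ := pres_N_le hst.pres
  set T' : Subgroup F := Subgroup.normalClosure (Set.range T) with hT'
  have hT'n : T'.Normal := Subgroup.normalClosure_normal
  have hT'V : T' ≤ V := by
    refine Subgroup.normalClosure_le_normal ?_
    rintro _ ⟨i, rfl⟩
    exact hst.Fil_le _ (hT i)
  have hfin : Finite (F ⧸ V) := by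
    obtain ⟨k, hk⟩ := hst.V_index
    have : V.index ≠ 0 := by
      rw [hk]
      exact pow_ne_zero _ (Fact.out : p.Prime).ne_zero
    have : V.FiniteIndex := ⟨this⟩
    exact Subgroup.finite_quotient_of_finiteIndex
  have : Fintype (F ⧸ V) := Fintype.ofFinite _
  have hsum2 : Summable (fun z : (F ⧸ V) × ι => t ^ e z.2) := by
    refine (summable_prod_of_nonneg (fun z => by positivity)).2 ⟨fun _ => hsum, ?_⟩
    exact summable_of_hasFiniteSupport (Set.toFinite _)
  refine ⟨inferInstance, hVn, hst.V_index, fun m => inferInstance, fun m => ?_, ?_, ?_, ?_⟩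
  · exact sup_le (hst.Fil_le m) (sup_le hNV hT'V)
  · exact hst.le_Fil.trans le_sup_left
  · obtain ⟨Y, _, _, d, φ, ι₀, R, e₀, h1, h2, h3, h4, h5, h6⟩ := hst.pres
    -- lifts of the conjugates of the new relators
    have hlift : ∀ (q : F ⧸ V) (i : ι), ∃ S ∈ D p d (e i), ∃ n ∈ N,
        φ S * n = q.out * T i * q.out⁻¹ := by
      intro q i
      have h7 : q.out * T i * q.out⁻¹ ∈ V ⊓ Fil (e i) := by
        refine ⟨?_, ?_⟩
        · exact hVn.conj_mem _ (hst.Fil_le _ (hT i)) _
        · exact (hFn _).conj_mem _ (hT i) _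
      rw [← h2 (e i)] at h7
      obtain ⟨a, ha, n, hn, han⟩ := Subgroup.mem_sup_of_normal_right.1 h7
      obtain ⟨S, hS, rfl⟩ := Subgroup.mem_map.1 ha
      exact ⟨S, hS, n, hn, han⟩
    choose S hS n hn hSn using hlift
    set K : Subgroup (FreeGroup Y) := Subgroup.normalClosure
      (Set.range (Sum.elim R (fun z : (F ⧸ V) × ι => S z.1 z.2))) with hK
    have hKn : K.Normal := Subgroup.normalClosure_normal
    have hRK : N.comap φ ≤ K := by
      rw [h3]
      refine Subgroup.normalClosure_le_normal ?_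
      rintro _ ⟨l, rfl⟩
      exact Subgroup.subset_normalClosure ⟨Sum.inl l, rfl⟩
    have hSK : ∀ q i, S q i ∈ K := fun q i =>
      Subgroup.subset_normalClosure ⟨Sum.inr (q, i), rfl⟩
    have hφV : ∀ v ∈ V, ∃ u n', n' ∈ N ∧ v = φ u * n' := by
      intro v hv
      have h7 : v ∈ V ⊓ Fil 0 := ⟨hv, hst.le_Fil hv⟩
      rw [← h2 0] at h7
      obtain ⟨a, ha, n', hn', han⟩ := Subgroup.mem_sup_of_normal_right.1 h7
      obtain ⟨u, -, rfl⟩ := Subgroup.mem_map.1 ha
      exact ⟨u, n', hn', han.symm⟩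
    have hQ : T' ≤ K.map φ ⊔ N := by
      rw [hT', Subgroup.normalClosure, Subgroup.closure_le]
      intro x hx
      rw [Group.mem_conjugatesOfSet_iff] at hx
      obtain ⟨_, ⟨i, rfl⟩, hconj⟩ := hx
      rw [isConj_iff] at hconj
      obtain ⟨g, rfl⟩ := hconj
      -- `g = v * q.out`
      set q : F ⧸ V := (g : F ⧸ V) with hq
      have hv : g * q.out⁻¹ ∈ V := by
        have h8 : (q.out : F)⁻¹ * g ∈ V := by
          rw [← QuotientGroup.eq, QuotientGroup.out_eq']
        have h9 := hVn.conj_mem _ h8 q.out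
        have h10 : q.out * (q.out⁻¹ * g) * q.out⁻¹ = g * q.out⁻¹ := by group
        rwa [h10] at h9
      obtain ⟨u, n', hn', huv⟩ := hφV _ hv
      have h11 : g * T i * g⁻¹ = φ u * (n' * (φ (S q i) * n q i) * n'⁻¹) * (φ u)⁻¹ := by
        rw [hSn q i]
        have h12 : g = φ u * n' * q.out := by rw [← huv]; group
        conv_lhs => rw [h12]
        group
      rw [h11]
      have m1 : φ (S q i) ∈ K.map φ ⊔ N :=
        Subgroup.mem_sup_left (Subgroup.mem_map_of_mem φ (hSK q i))
      have m2 : ∀ z ∈ N, z ∈ K.map φ ⊔ N := fun z hz => Subgroup.mem_sup_right hz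
      have m3 : n' * (φ (S q i) * n q i) * n'⁻¹ ∈ K.map φ ⊔ N :=
        mul_mem (mul_mem (m2 _ hn') (mul_mem m1 (m2 _ (hn q i)))) (inv_mem (m2 _ hn'))
      obtain ⟨a, ha, n'', hn'', han⟩ := Subgroup.mem_sup_of_normal_right.1 m3
      obtain ⟨k, hk, rfl⟩ := Subgroup.mem_map.1 ha
      rw [← han]
      have h13 : φ u * (φ k * n'') * (φ u)⁻¹ = φ (u * k * u⁻¹) * (φ u * n'' * (φ u)⁻¹) := by
        simp only [map_mul, map_inv]
        group
      rw [h13]
      exact mul_mem (Subgroup.mem_sup_left (Subgroup.mem_map_of_mem φ (hKn.conj_mem _ hk _)))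
        (Subgroup.mem_sup_right (hNn.conj_mem _ hn'' _))
    refine ⟨Y, inferInstance, inferInstance, d, φ, ι₀ ⊕ ((F ⧸ V) × ι),
      Sum.elim R (fun z => S z.1 z.2), Sum.elim e₀ (fun z => e z.2), h1, ?_, ?_, ?_, ?_, ?_⟩
    · intro m
      rw [← sup_assoc, h2 m]
      have h7 : V ⊓ Fil m = Fil m := inf_eq_right.2 (hst.Fil_le m)
      have h8 : Fil m ⊔ (N ⊔ T') = Fil m ⊔ T' := by
        rw [← sup_assoc, sup_eq_left.2 (hNF m)]
      rw [h7]
      change Fil m ⊔ T' = V ⊓ (Fil m ⊔ (N ⊔ T'))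
      rw [h8]
      exact (inf_eq_right.2 (sup_le (hst.Fil_le m) hT'V)).symm
    · refine le_antisymm ?_ ?_
      · intro x hx
        rw [Subgroup.mem_comap] at hx
        have h7 : φ x ∈ K.map φ ⊔ N := (sup_le le_sup_right hQ) hx
        obtain ⟨a, ha, n', hn', han⟩ := Subgroup.mem_sup_of_normal_right.1 h7
        obtain ⟨k, hk, rfl⟩ := Subgroup.mem_map.1 ha
        have h8 : k⁻¹ * x ∈ N.comap φ := by
          rw [Subgroup.mem_comap, map_mul, map_inv, ← han]
          have : (φ k)⁻¹ * (φ k * n') = n' := by group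
          rw [this]
          exact hn'
        have h9 := mul_mem hk (hRK h8)
        rwa [mul_inv_cancel_left] at h9
      · have hcn : ((N ⊔ T').comap φ).Normal := inferInstance
        refine Subgroup.normalClosure_le_normal ?_
        rintro _ ⟨l | ⟨q, i⟩, rfl⟩
        · have h7 : R l ∈ N.comap φ := by
            rw [h3]
            exact Subgroup.subset_normalClosure ⟨l, rfl⟩
          exact Subgroup.comap_mono le_sup_left h7
        · change φ (S q i) ∈ N ⊔ T'
          have h7 : φ (S q i) = (q.out * T i * q.out⁻¹) * (n q i)⁻¹ := by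
            rw [← hSn q i]; group
          rw [h7]
          refine mul_mem (Subgroup.mem_sup_right (hT'n.conj_mem _ ?_ _))
            (Subgroup.mem_sup_left (inv_mem (hn q i)))
          exact Subgroup.subset_normalClosure ⟨i, rfl⟩
    · rintro (l | ⟨q, i⟩)
      · exact h4 l
      · exact hS q i
    · exact Summable.sum _ h5 hsum2
    · have h7 : ∑' i, t ^ (Sum.elim e₀ (fun z : (F ⧸ V) × ι => e z.2)) i =
          ∑' i, t ^ e₀ i + (V.index : ℝ) * ∑' i, t ^ e i := by
        rw [Summable.tsum_sum (f := fun i => t ^ (Sum.elim e₀ (fun z : (F ⧸ V) × ι => e z.2)) i)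
          h5 hsum2]
        congr 1
        change ∑' z : (F ⧸ V) × ι, t ^ e z.2 = _
        rw [hsum2.tsum_prod' (fun _ => hsum)]
        rw [tsum_fintype]
        simp only [Finset.sum_const, Finset.card_univ, nsmul_eq_mul]
        rw [Subgroup.index_eq_card, Nat.card_eq_fintype_card]
      rw [h7]
      linarith
  · linarith

end Pool.Agent.Helper95_DC
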