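import Pool.Agent.Helper95_DC.Pres

set_option autoImplicit false

/-! Module STAGE of MP_45e9b0_lc: making one finitely generated subgroup finite or of finite
index. -/

namespace Pool.Agent.Helper95_DC

open scoped commutatorElement

theorem qf_ge {p : ℕ} (hp : 2 ≤ p) {t : ℝ} (ht : 0 < t) (j : ℕ) : 1 + t ^ j ≤ qf p t j := by
  unfold qf
  obtain ⟨k, rfl⟩ := Nat.exists_eq_add_of_le hp
  rw [Finset.sum_range_add]
  simp only [Finset.sum_range_succ, Finset.sum_range_zero, zero_mul, pow_zero, one_mul, zero_add]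
  have : 0 ≤ ∑ x ∈ Finset.range k, t ^ ((2 + x) * j) :=
    Finset.sum_nonneg fun _ _ => by positivity
  linarith

theorem qf_ge_one {p : ℕ} (hp : 2 ≤ p) {t : ℝ} (ht : 0 < t) (j : ℕ) : 1 ≤ qf p t j := by
  have := qf_ge hp ht j
  have h2 : 0 < t ^ j := by positivity
  linarith

/-- The product of the factors dominates the sum. -/
theorem prod_qf_ge {p : ℕ} (hp : 2 ≤ p) {t : ℝ} (ht : 0 < t) (κ : ℕ → ℕ) (m : ℕ) :
    1 + ∑ j ∈ Finset.range m, (κ j : ℝ) * t ^ j ≤ ∏ j ∈ Finset.range m, qf p t j ^ κ j := by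
  induction m with
  | zero => simp
  | succ m ih =>
    rw [Finset.sum_range_succ, Finset.prod_range_succ]
    have h1 : 0 ≤ ∑ j ∈ Finset.range m, (κ j : ℝ) * t ^ j :=
      Finset.sum_nonneg fun _ _ => by positivity
    have h2 : 1 + (κ m : ℝ) * t ^ m ≤ qf p t m ^ κ m := by
      have h3 := one_add_mul_le_pow (a := t ^ m) (by have : 0 < t ^ m := by positivity
                                                     linarith) (κ m)
      exact h3.trans (pow_le_pow_left₀ (by positivity) (qf_ge hp ht m) _)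
    have h4 : 0 ≤ (κ m : ℝ) * t ^ m := by positivity
    calc 1 + (∑ j ∈ Finset.range m, (κ j : ℝ) * t ^ j + (κ m : ℝ) * t ^ m)
        ≤ (1 + ∑ j ∈ Finset.range m, (κ j : ℝ) * t ^ j) * (1 + (κ m : ℝ) * t ^ m) := by
          nlinarith [mul_nonneg h1 h4]
      _ ≤ _ := mul_le_mul ih h2 (by linarith) (le_trans (by linarith) ih)

theorem stage_N_le {F : Type} [Group F] {p : ℕ} {t : ℝ} {N V : Subgroup F} {Fil : ℕ → Subgroup F}
    {b : ℝ} (h : Pres p t N V Fil b) : N ≤ V := by
  obtain ⟨Y, _, _, d, φ, ι, R, e, h1, h2, -⟩ := h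
  exact (le_sup_right.trans (h2 0).le).trans inf_le_left

/-- A finite index part of a finitely generated subgroup has a finite generating family. -/
theorem exists_gen {F : Type} [Group F] {t : ℝ} {N V : Subgroup F} [N.Normal] (hNV : N ≤ V)
    (hV : V.FiniteIndex) {Fil : ℕ → Subgroup F} (hFil : V ≤ Fil 1) (S : Finset F) :
    ∃ ω : ℝ, Gen t N ((Subgroup.closure (S : Set F) ⊔ N) ⊓ V) Fil ω := by
  classical
  set Q := Subgroup.closure (S : Set F) ⊔ N with hQ
  set P₀ := Q ⊓ V with hP₀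
  set π := QuotientGroup.mk' N with hπ
  have hker : π.ker = N := QuotientGroup.ker_mk' N
  have hQfg : (Q.map π).FG := by
    refine ⟨S.image π, ?_⟩
    rw [hQ, Subgroup.map_sup, Finset.coe_image, ← MonoidHom.map_closure]
    have : N.map π = ⊥ := by
      rw [Subgroup.map_eq_bot_iff, hker]
    rw [this, sup_bot_eq]
  have hQfg' : Group.FG (Q.map π) := (Group.fg_iff_subgroup_fg _).2 hQfg
  have hrel : P₀.relIndex Q ≠ 0 := by
    rw [hP₀, Subgroup.inf_relIndex_left]
    have : (V.subgroupOf Q).FiniteIndex := inferInstance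
    exact this.index_ne_zero
  have hNP : N ≤ P₀ := le_inf le_sup_right hNV
  have hrel2 : (P₀.map π).relIndex (Q.map π) ≠ 0 := by
    rw [Subgroup.relIndex_map_map, hker, sup_eq_left.2 hNP, sup_eq_left.2 (le_sup_right : N ≤ Q)]
    exact hrel
  have hfi : ((P₀.map π).subgroupOf (Q.map π)).FiniteIndex := ⟨hrel2⟩
  have hfg3 : Group.FG ((P₀.map π).subgroupOf (Q.map π)) := inferInstance
  have hfg4 : ((P₀.map π).subgroupOf (Q.map π)).FG := (Group.fg_iff_subgroup_fg _).1 hfg3
  have hfg5 : (P₀.map π).FG := by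
    obtain ⟨T₀, hT₀⟩ := hfg4
    refine ⟨T₀.image (Q.map π).subtype, ?_⟩
    rw [Finset.coe_image, ← MonoidHom.map_closure, hT₀,
      Subgroup.map_subgroupOf_eq_of_le (Subgroup.map_mono inf_le_left)]
  obtain ⟨T, hT⟩ := hfg5
  have hlift : ∀ x : T, ∃ s ∈ P₀, π s = x := by
    intro x
    have h1 : (x : F ⧸ N) ∈ P₀.map π := by
      rw [← hT]
      exact Subgroup.subset_closure x.2
    exact Subgroup.mem_map.1 h1
  choose s hs hsx using hlift
  refine ⟨∑ _i : T, t ^ 1, T, inferInstance, s, fun _ => 1, fun i => hFil (hs i).2, ?_, le_rfl⟩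
  refine le_antisymm (sup_le ?_ hNP) ?_
  · rw [Subgroup.closure_le]
    rintro _ ⟨i, rfl⟩
    exact hs i
  · intro x hx
    have h1 : π x ∈ (Subgroup.closure (Set.range s)).map π := by
      have h2 : (Subgroup.closure (Set.range s)).map π = P₀.map π := by
        rw [MonoidHom.map_closure, ← hT]
        congr 1
        ext y
        constructor
        · rintro ⟨_, ⟨i, rfl⟩, rfl⟩
          rw [hsx]
          exact i.2
        · intro hy
          exact ⟨s ⟨y, hy⟩, ⟨_, rfl⟩, hsx ⟨y, hy⟩⟩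
      rw [h2]
      exact Subgroup.mem_map_of_mem π hx
    have h3 : x ∈ ((Subgroup.closure (Set.range s)).map π).comap π := h1
    rwa [Subgroup.comap_map_eq, hker] at h3

theorem two_le_of_prime (p : ℕ) [Fact p.Prime] : 2 ≤ p := (Fact.out : p.Prime).two_le

theorem pow_inj_of_prime {p : ℕ} [Fact p.Prime] {a b : ℕ} (h : p ^ a = p ^ b) : a = b :=
  Nat.pow_right_injective (two_le_of_prime p) h

/-- MODULE STAGE. -/
theorem stage (hB : BasicStatement) (hPC : PChainStatement) (hUC : UChainStatement)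
    (hF : FillStatement) (hK : KillStatement) (hS : ScaleStatement) : StageStatement := by
  intro p _ t ht0 ht1 F _ N V Fil b hst S M hMn hMi hNM
  have hp2 := two_le_of_prime p
  have hNn := hst.N_normal
  have hVn := hst.V_normal
  have hFn := hst.Fil_normal
  obtain ⟨hax, hF0, hF1, hFi, -, hlast⟩ := hB p t ht0 ht1 F N V Fil b hst
  obtain ⟨m₀, hm₀⟩ := hlast M hMn hMi hNM
  have hNV : N ≤ V := stage_N_le hst.pres
  have hVfi : V.FiniteIndex := by
    obtain ⟨k, hk⟩ := hst.V_index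
    exact ⟨by rw [hk]; exact pow_ne_zero _ (Fact.out : p.Prime).ne_zero⟩
  have hFfi : ∀ m, (Fil m).FiniteIndex := by
    intro m
    obtain ⟨k, hk⟩ := hFi m
    exact ⟨by rw [hk]; exact pow_ne_zero _ (Fact.out : p.Prime).ne_zero⟩
  obtain ⟨ω, hω⟩ := exists_gen (t := t) hNV hVfi hF1.ge S
  set P₀ : Subgroup F := (Subgroup.closure (S : Set F) ⊔ N) ⊓ V with hP₀
  have hNP : N ≤ P₀ := le_inf le_sup_right hNV
  have hP1 : P₀ ⊓ Fil 1 = P₀ := inf_eq_left.2 (by rw [hF1]; exact inf_le_right)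
  have hP01 : P₀ ⊓ Fil 0 = P₀ := inf_eq_left.2 (by rw [hF0]; exact inf_le_right)
  have hinf : ∀ m, (P₀ ⊓ Fil m) ⊓ Fil (m + 1) = P₀ ⊓ Fil (m + 1) := by
    intro m
    rw [inf_assoc, inf_eq_right.2 (hax.anti (Nat.le_succ m))]
  have hstepG : ∀ m, 0 < m → ∀ ω', Gen t N (P₀ ⊓ Fil m) Fil ω' → ∃ r : ℕ,
      (P₀ ⊓ Fil (m + 1)).relIndex (P₀ ⊓ Fil m) = p ^ r ∧
        Gen t N (P₀ ⊓ Fil (m + 1)) Fil (1 + (ω' - 1) * qf p t m ^ r) := by
    intro m hm ω' hg
    have := hPC p t ht0 ht1 F N (P₀ ⊓ Fil m) Fil ω' m hm hNn (le_inf hNP (hax.N_le m)) hax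
      inf_le_right hg
    rwa [hinf m] at this
  have hexG : ∀ m, 0 < m → ∃ ω', Gen t N (P₀ ⊓ Fil m) Fil ω' := by
    intro m hm
    induction m, hm using Nat.le_induction with
    | base =>
      refine ⟨ω, ?_⟩
      change Gen t N (P₀ ⊓ Fil 1) Fil ω
      rw [hP1]
      exact hω
    | succ m hm ih =>
      obtain ⟨ω', h⟩ := ih
      obtain ⟨r, -, h2⟩ := hstepG m hm ω' h
      exact ⟨_, h2⟩
  have hexr : ∀ m, ∃ r, (P₀ ⊓ Fil (m + 1)).relIndex (P₀ ⊓ Fil m) = p ^ r := by
    intro m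
    rcases Nat.eq_zero_or_pos m with rfl | hm
    · refine ⟨0, ?_⟩
      rw [hP01, Nat.zero_add, hP1, pow_zero]
      exact Subgroup.relIndex_self _
    · obtain ⟨ω', h⟩ := hexG m hm
      obtain ⟨r, h1, -⟩ := hstepG m hm ω' h
      exact ⟨r, h1⟩
  choose r hr using hexr
  have hr0 : r 0 = 0 := by
    have h1 := hr 0
    rw [hP01, Nat.zero_add, hP1, Subgroup.relIndex_self] at h1
    exact pow_inj_of_prime (p := p) (by rw [← h1, pow_zero])
  set R : ℕ → ℝ := fun m => ∏ j ∈ Finset.range m, qf p t j ^ r j with hR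
  have hG : ∀ m, 0 < m → Gen t N (P₀ ⊓ Fil m) Fil (1 + (ω - 1) * R m) := by
    intro m hm
    induction m, hm using Nat.le_induction with
    | base =>
      have : R (0 + 1) = 1 := by simp [hR, hr0]
      rw [this, mul_one, add_sub_cancel]
      change Gen t N (P₀ ⊓ Fil 1) Fil ω
      rw [hP1]
      exact hω
    | succ m hm ih =>
      obtain ⟨r', h1, h2⟩ := hstepG m hm _ ih
      have h3 : r' = r m := pow_inj_of_prime (p := p) (by rw [← h1, hr m])
      rw [h3] at h2
      have h4 : R (m + 1) = R m * qf p t m ^ r m := by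
        simp only [hR, Finset.prod_range_succ]
      rw [h4]
      have h5 : 1 + (1 + (ω - 1) * R m - 1) * qf p t m ^ r m =
          1 + (ω - 1) * (R m * qf p t m ^ r m) := by ring
      rwa [h5] at h2
  -- the upper chain
  have hstepU : ∀ m, 0 < m → ∀ b', 0 ≤ b' → Pres p t N (Fil m) Fil b' → ∃ n : ℕ,
      (Fil (m + 1)).relIndex (Fil m) = p ^ n ∧ Pres p t N (Fil (m + 1)) Fil (b' * qf p t m ^ n) :=
    fun m hm b' hb' h => hUC p t ht0 ht1 F N (Fil m) Fil b' m hm hNn hax hb' le_rfl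
      (hax.anti (Nat.le_succ m)) h
  have hq0 : ∀ m, 0 < qf p t m := fun m => lt_of_lt_of_le one_pos (qf_ge_one hp2 ht0 m)
  have hexU : ∀ m, 0 < m → ∃ b', 0 ≤ b' ∧ Pres p t N (Fil m) Fil b' := by
    intro m hm
    induction m, hm using Nat.le_induction with
    | base =>
      refine ⟨b, hst.pos.le, ?_⟩
      change Pres p t N (Fil 1) Fil b
      rw [hF1]
      exact hst.pres
    | succ m hm ih =>
      obtain ⟨b', hb', h⟩ := ih
      obtain ⟨n, -, h2⟩ := hstepU m hm b' hb' h
      exact ⟨_, mul_nonneg hb' (pow_nonneg (hq0 m).le _), h2⟩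
  have hexn : ∀ m, ∃ n, (Fil (m + 1)).relIndex (Fil m) = p ^ n := by
    intro m
    rcases Nat.eq_zero_or_pos m with rfl | hm
    · refine ⟨0, ?_⟩
      rw [hF0, Nat.zero_add, hF1, pow_zero]
      exact Subgroup.relIndex_self _
    · obtain ⟨b', hb', h⟩ := hexU m hm
      obtain ⟨n, h1, -⟩ := hstepU m hm b' hb' h
      exact ⟨n, h1⟩
  choose n hn using hexn
  have hn0 : n 0 = 0 := by
    have h1 := hn 0
    rw [hF0, Nat.zero_add, hF1, Subgroup.relIndex_self] at h1
    exact pow_inj_of_prime (p := p) (by rw [← h1, pow_zero])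
  set Bn : ℕ → ℝ := fun m => ∏ j ∈ Finset.range m, qf p t j ^ n j with hBn
  have hBpos : ∀ m, 0 < Bn m := fun m => Finset.prod_pos fun j _ => pow_pos (hq0 j) _
  have hU : ∀ m, 0 < m → Pres p t N (Fil m) Fil (b * Bn m) := by
    intro m hm
    induction m, hm using Nat.le_induction with
    | base =>
      have : Bn (0 + 1) = 1 := by simp [hBn, hn0]
      rw [this, mul_one]
      change Pres p t N (Fil 1) Fil b
      rw [hF1]
      exact hst.pres
    | succ m hm ih =>
      obtain ⟨n', h1, h2⟩ := hstepU m hm _ (mul_nonneg hst.pos.le (hBpos m).le) ih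
      have h3 : n' = n m := pow_inj_of_prime (p := p) (by rw [← h1, hn m])
      rw [h3] at h2
      have h4 : Bn (m + 1) = Bn m * qf p t m ^ n m := by
        simp only [hBn, Finset.prod_range_succ]
      rw [h4, ← mul_assoc]
      exact h2
  -- the exponents `κ`
  have hκ : ∀ m, r m ≤ n m ∧
      ((P₀ ⊓ Fil m) ⊔ Fil (m + 1)).relIndex (Fil m) = p ^ (n m - r m) := by
    intro m
    have h1 : (Fil (m + 1)).relIndex ((P₀ ⊓ Fil m) ⊔ Fil (m + 1)) = p ^ r m := by
      rw [Subgroup.relIndex_sup_right, ← Subgroup.inf_relIndex_right, inf_comm, hinf m]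
      exact hr m
    have h2 := Subgroup.relIndex_mul_relIndex (Fil (m + 1)) ((P₀ ⊓ Fil m) ⊔ Fil (m + 1)) (Fil m)
      le_sup_right (sup_le inf_le_right (hax.anti (Nat.le_succ m)))
    rw [h1, hn m] at h2
    have h3 : r m ≤ n m := (Nat.pow_dvd_pow_iff_le_right hp2).1 ⟨_, h2.symm⟩
    refine ⟨h3, ?_⟩
    have h4 : p ^ r m * p ^ (n m - r m) = p ^ n m := by
      rw [← pow_add, Nat.add_sub_cancel' h3]
    have h5 : 0 < p ^ r m := pow_pos (Fact.out : p.Prime).pos _
    exact Nat.eq_of_mul_eq_mul_left h5 (h2.trans h4.symm)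
  by_cases hsum : Summable (fun m => ((n m - r m : ℕ) : ℝ) * t ^ m)
  · -- `P₀` is made of finite index
    obtain ⟨N', Fil', b', hst', hNN', hN'm, m, hm⟩ := hF p t ht0 ht1 F N V Fil b hst P₀
      (fun m => n m - r m) hNP (fun m => (hκ m).2) hsum m₀
    refine ⟨N', V, Fil', b', hst', hNN', hN'm.trans hm₀, Or.inl ?_⟩
    have h1 : Fil m ≤ Subgroup.closure (S : Set F) ⊔ N' := by
      refine hm.trans (sup_le ?_ le_sup_right)
      exact inf_le_left.trans (sup_le le_sup_left (hNN'.trans le_sup_right))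
    have := hFfi m
    exact Subgroup.finiteIndex_of_le h1
  · -- `P₀` is made finite
    have htend := (not_summable_iff_tendsto_nat_atTop_of_nonneg
      (fun m => by positivity : ∀ m, 0 ≤ ((n m - r m : ℕ) : ℝ) * t ^ m)).1 hsum
    have hb := hst.pos
    obtain ⟨m, hm1, hm2⟩ := ((htend.eventually_ge_atTop ((1 + |ω - 1|) / (t * b))).and
      (Filter.eventually_ge_atTop 1)).exists
    set Km : ℝ := ∏ j ∈ Finset.range m, qf p t j ^ (n j - r j) with hKm
    have hKge := prod_qf_ge hp2 ht0 (fun j => n j - r j) m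
    have hBKR : Bn m = Km * R m := by
      simp only [hBn, hKm, hR, ← Finset.prod_mul_distrib, ← pow_add]
      refine Finset.prod_congr rfl fun j _ => ?_
      rw [Nat.sub_add_cancel (hκ j).1]
    have hR1 : 1 ≤ R m := Finset.prod_induction _ (fun x : ℝ => 1 ≤ x)
      (fun a b ha hb => one_le_mul_of_one_le_of_one_le ha hb) le_rfl
      (fun j _ => one_le_pow₀ (qf_ge_one hp2 ht0 j))
    have htb : 0 < t * b := mul_pos ht0 hb
    have hK1 : 1 + |ω - 1| ≤ t * b * Km := by
      have h1 : (1 + |ω - 1|) / (t * b) ≤ Km := by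
        refine hm1.trans (le_trans ?_ hKge)
        linarith
      rwa [div_le_iff₀ htb, mul_comm] at h1
    have hmain : 1 + (ω - 1) * R m < t * (b * Bn m + 1) := by
      rw [hBKR]
      have h1 : (1 + |ω - 1|) * R m ≤ t * b * Km * R m :=
        mul_le_mul_of_nonneg_right hK1 (by linarith)
      have h2 : (ω - 1) * R m ≤ |ω - 1| * R m :=
        mul_le_mul_of_nonneg_right (le_abs_self _) (by linarith)
      nlinarith
    have hbm : 0 < b * Bn m := mul_pos hb (hBpos m)
    -- the scaling exponent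
    obtain ⟨k, hk1, hk2⟩ : ∃ k : ℕ, 1 < t ^ k * (b * Bn m + 1) ∧
        t ^ (k + 1) * (b * Bn m + 1) ≤ 1 := by
      have hex : ∃ k : ℕ, t ^ (k + 1) * (b * Bn m + 1) ≤ 1 := by
        have h1 : Filter.Tendsto (fun k : ℕ => t ^ (k + 1) * (b * Bn m + 1)) Filter.atTop
            (nhds (0 * (b * Bn m + 1))) :=
          ((tendsto_pow_atTop_nhds_zero_of_lt_one ht0.le ht1).comp
            (Filter.tendsto_add_atTop_nat 1)).mul_const _
        rw [zero_mul] at h1
        exact (h1.eventually (ge_mem_nhds one_pos)).exists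
      classical
      refine ⟨Nat.find hex, ?_, Nat.find_spec hex⟩
      rcases Nat.eq_zero_or_pos (Nat.find hex) with h0 | h0
      · rw [h0, pow_zero, one_mul]
        linarith
      · have h1 := Nat.find_min hex (Nat.sub_lt h0 one_pos)
        have e : Nat.find hex - 1 + 1 = Nat.find hex := by omega
        rw [e] at h1
        exact not_le.1 h1
    have hk3 : t ^ k * (1 + (ω - 1) * R m) < 1 := by
      have h1 : t ^ k * (1 + (ω - 1) * R m) < t ^ k * (t * (b * Bn m + 1)) :=
        mul_lt_mul_of_pos_left hmain (by positivity)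
      have h2 : t ^ k * (t * (b * Bn m + 1)) = t ^ (k + 1) * (b * Bn m + 1) := by
        rw [pow_succ]; ring
      linarith
    -- the state at level `m`
    have hst2 : State p t N (Fil m) (fun j => Fil (max m j)) (b * Bn m) := by
      refine ⟨hNn, hFn m, hFi m, fun j => hFn _, fun j => hax.anti (le_max_left _ _), ?_, ?_, hbm⟩
      · change Fil m ≤ Fil (max m 0)
        rw [Nat.max_zero]
      · obtain ⟨Y, i1, i2, d, φ, ι, Rl, e, g1, g2, g3, g4, g5, g6⟩ := hU m hm2
        refine ⟨Y, i1, i2, d, φ, ι, Rl, e, g1, fun j => ?_, g3, g4, g5, g6⟩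
        rw [g2 j]
        change Fil m ⊓ Fil j = Fil m ⊓ Fil (max m j)
        rcases le_total m j with h | h
        · rw [max_eq_right h]
        · rw [max_eq_left h, inf_eq_left.2 (hax.anti h), inf_idem]
    obtain ⟨Fil3, hst3, hle3⟩ := hS p t ht0 ht1 F N (Fil m) _ _ k hst2 (by linarith)
    obtain ⟨-, -, -, hFi3, -, hlast3⟩ := hB p t ht0 ht1 F N (Fil m) Fil3 _ hst3
    obtain ⟨m₁, hm₁⟩ := hlast3 M hMn hMi hNM
    have hG3 : Gen t N (P₀ ⊓ Fil m) Fil3 (t ^ k * (1 + (ω - 1) * R m)) := by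
      obtain ⟨ι, i1, s, e, g1, g2, g3⟩ := hG m hm2
      refine ⟨ι, i1, s, fun i => e i + k, fun i => ?_, g2, ?_⟩
      · refine hle3 (e i) ?_
        have h1 : s i ∈ Fil m := by
          have h2 : s i ∈ P₀ ⊓ Fil m := by
            rw [← g2]
            exact Subgroup.mem_sup_left (Subgroup.subset_closure ⟨i, rfl⟩)
          exact h2.2
        change s i ∈ Fil (max m (e i))
        rcases le_total m (e i) with h | h
        · rw [max_eq_right h]; exact g1 i
        · rw [max_eq_left h]; exact h1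
      · have h1 : ∑ i, t ^ (e i + k) = t ^ k * ∑ i, t ^ e i := by
          rw [Finset.mul_sum]
          exact Finset.sum_congr rfl fun i _ => by rw [pow_add, mul_comm]
        rw [h1]
        exact mul_le_mul_of_nonneg_left g3 (by positivity)
    obtain ⟨N', Fil', b', hst', hNN', hN'm, m', hm'⟩ := hK p t ht0 ht1 F N (Fil m) Fil3 _ hst3
      (P₀ ⊓ Fil m) _ (le_inf hNP (hax.N_le m)) inf_le_right hG3 hk3 m₁
    refine ⟨N', Fil m, Fil', b', hst', hNN', hN'm.trans hm₁, Or.inr ?_⟩
    have hfi3 : (Fil3 m').FiniteIndex := by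
      obtain ⟨k, hk⟩ := hFi3 m'
      exact ⟨by rw [hk]; exact pow_ne_zero _ (Fact.out : p.Prime).ne_zero⟩
    have hfm := hFfi m
    have h1 : (Fil m ⊓ Fil3 m') ⊓ Subgroup.closure (S : Set F) ≤ N' := by
      intro x hx
      refine hm' ⟨⟨⟨?_, ?_⟩, hx.1.1⟩, hx.1.2⟩
      · exact Subgroup.mem_sup_left hx.2
      · exact hst.Fil_le m hx.1.1
    have h2 : (Fil m ⊓ Fil3 m').FiniteIndex := inferInstance
    have h3 : ((Fil m ⊓ Fil3 m') ⊓ Subgroup.closure (S : Set F)).relIndex
        (Subgroup.closure (S : Set F)) ≠ 0 := by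
      rw [Subgroup.inf_relIndex_right]
      have : ((Fil m ⊓ Fil3 m').subgroupOf (Subgroup.closure (S : Set F))).FiniteIndex :=
        inferInstance
      exact this.index_ne_zero
    exact fun h0 => h3 (Nat.eq_zero_of_zero_dvd (h0 ▸ Subgroup.relIndex_dvd_of_le_left _ h1))

end Pool.Agent.Helper95_DC
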